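import Pool.Agent.TH997.DD.Fin2
import Pool.Agent.TH997.DD.SNDS
import Pool.Agent.TH997.DD.KRS
import Pool.Agent.TH997.DD.CLE
import Pool.Agent.TH997.DD.CLT
import Pool.Agent.TH997.DD.RESA
import Pool.Agent.TH997.DD.RESB
import Pool.Agent.TH997.DD.RESC
import Pool.Agent.TH997.DD.CTE
import Pool.Agent.TH997.DD.REM
import Pool.Agent.TH997.DD.LIO
import Pool.Agent.TH997.DD.TAM
import Pool.Agent.TH997.DD.GRW
import Pool.Agent.TH997.DD.ASYM
import Pool.Agent.TH997.DD.NV

/-!
# The nonpositive terms of a linear recurrence: syndetic or sparse, decided in `∃ℝ`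

The objects are those of `Pool.Agent.H612.LR` (an instance is a list `l` of pairs of rational
numbers, `seq l` the sequence) and of `Pool.Agent.TH997.DD`:
* `Synd l`: the indices `n` with `u_n ≤ 0` have bounded gaps;
* `Sparse l`: there are at most `C N / (log N)^(2^(-k))` of them below `N`, `k` the order.
-/

set_option autoImplicit false

namespace Pool.Agent.Results.MP_5326a7_lc.SyndeticOrSparse

open Pool.Agent.NPC Pool.Agent.NPC.ER Pool.Agent.H612.LR Pool.Agent.TH997.DD
open Pool.Agent.TH286.GT.Main
open scoped Classical

/-- There is a polynomial time function `f` to existential sentences over the reals such that for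
EVERY rational linear recurrence `l` (any order, multiple roots allowed, degenerate allowed):
* if `f l` is true the set of the indices of the terms `≤ 0` has bounded gaps;
* if `f l` is false this set has at most `C N / (log N)^(2^(-k))` elements below `N`;
* if `l` is not tight, or its multiple roots are small, or `l` is tame, and `l` is not ultimately
  positive, then `f l` is true (so that `f` decides ultimate positivity for these classes). -/
theorem result :
    ∃ f : List Bool → Fm, PolyTime (fun w => bits (f w)) ∧
      ∀ l : Rec, l ≠ [] →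
        (ETR (f (bits l)) → Synd l) ∧ (¬ ETR (f (bits l)) → Sparse l) ∧
        ((NonTight l ∨ SmallMultipleRoots l ∨ Tame l) →
          (ETR (f (bits l)) ↔ ¬ UltPositive l)) := by
  obtain ⟨f, hf, h⟩ := Fin2.main_str (snds krs) (cle resa resb (resc lio) (cte rem))
    (clt resa (tam asym nv (resc lio)) grw)
  refine ⟨f, hf, fun l hl => ?_⟩
  obtain ⟨a, b, c⟩ := h l hl
  refine ⟨a, b, fun hc => ⟨fun he => ?_, c hc⟩⟩
  rintro ⟨N, hN⟩
  obtain ⟨g, hg⟩ := a he
  obtain ⟨n, hn, -, hn'⟩ := hg N
  exact absurd hn' (not_le.2 (hN n hn))

end Pool.Agent.Results.MP_5326a7_lc.SyndeticOrSparse
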