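import Pool.Agent.TH997.UP.Fin
import Pool.Agent.TH997.UP.CL
import Pool.Agent.TH997.UP.ACT
import Pool.Agent.TH997.UP.WND
import Pool.Agent.TH997.UP.ZBK
import Pool.Agent.TH997.UP.C9K
import Pool.Agent.TH997.UP.DETH
import Pool.Agent.TH997.UP.RKK
import Pool.Agent.TH997.UP.CRM
import Pool.Agent.TH997.UP.POSL
import Pool.Agent.TH997.UP.WIN
import Pool.Agent.TH997.UP.PD
import Pool.Agent.TH997.UP.HB
import Pool.Agent.TH997.UP.SCL
import Pool.Agent.TH997.UP.CNT
import Pool.Agent.TH997.UP.CMP

/-!
# Positivity of simple linear recurrences of any order, up to a universal sparse set of indices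

The objects are those of `Pool.Agent.H612.LR`:
* an instance is a list `l` of pairs `(a_i, u_i)` of rational numbers (coefficients and initial
  values), `seq l` the recurrence sequence, `sz l` its binary size;
* `Positive l`: all terms are `> 0`; `UltPositive l`: all but finitely many;
* `Simple l`: the characteristic polynomial has no repeated roots;
* `NonTight0 l`: for some `ρ > 0` the quotients `u_n / ρ^n` are bounded and their lower limit is
  not zero.
-/

set_option autoImplicit false

namespace Pool.Agent.Results.MP_5326a7_lc.UniversalSparseSet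

open Pool.Agent.NPC Pool.Agent.NPC.ER Pool.Agent.H612.LR Pool.Agent.TH997.UP
open scoped Classical

theorem few : CLs := cl (act (wnd (zbk c9k deth) deth rkk crm posl) win) pd hb

/-- `2 * u_n + 1` as a rational instance: the recurrence is multiplied by `x - 1`. -/
def shift (l : Rec) : Rec :=
  (List.range (l.length + 1)).map fun i =>
    ((if i < l.length then coef l i else 0) +
        (if i = 0 then 1 else -(coef l (i - 1))), 2 * seq l i + 1)

theorem shift_length (l : Rec) : (shift l).length = l.length + 1 := by simp [shift]

theorem coef_shift (l : Rec) (i : ℕ) (hi : i < l.length + 1) :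
    coef (shift l) i = (if i < l.length then coef l i else 0) +
        (if i = 0 then 1 else -(coef l (i - 1))) := by
  unfold coef shift
  rw [List.getD_eq_getElem _ _ (by simpa using hi)]
  simp [coef]

theorem ini_shift (l : Rec) (i : ℕ) (hi : i < l.length + 1) :
    ini (shift l) i = 2 * seq l i + 1 := by
  unfold ini shift
  rw [List.getD_eq_getElem _ _ (by simpa using hi)]
  simp

theorem seq_rec (l : Rec) (n : ℕ) (hn : l.length ≤ n) :
    seq l n = ∑ i ∈ Finset.range l.length, coef l i * seq l (n - 1 - i) := by
  rw [seq, if_neg (by omega), Finset.sum_range]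

/-- nonnegativity of the integer sequence `u` is strict positivity of the sequence `2 u + 1` -/
theorem seq_shift (l : Rec) (n : ℕ) : seq (shift l) n = 2 * seq l n + 1 := by
  induction n using Nat.strong_induction_on with
  | _ n ih =>
    by_cases hn : n < l.length + 1
    · rw [seq, if_pos (by rw [shift_length]; exact hn), ini_shift l n hn]
    · push Not at hn
      rw [seq_rec (shift l) n (by rw [shift_length]; exact hn), shift_length]
      have h1 : ∀ i ∈ Finset.range (l.length + 1),
          coef (shift l) i * seq (shift l) (n - 1 - i) =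
          (if i < l.length then coef l i else 0) * (2 * seq l (n - 1 - i) + 1) +
          (if i = 0 then 1 else -(coef l (i - 1))) * (2 * seq l (n - 1 - i) + 1) := by
        intro i hi
        rw [Finset.mem_range] at hi
        rw [coef_shift l i hi, ih (n - 1 - i) (by omega), add_mul]
      rw [Finset.sum_congr rfl h1, Finset.sum_add_distrib]
      have e1 : ∑ i ∈ Finset.range (l.length + 1),
          (if i < l.length then coef l i else 0) * (2 * seq l (n - 1 - i) + 1) =
          ∑ i ∈ Finset.range l.length, coef l i * (2 * seq l (n - 1 - i) + 1) := by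
        rw [Finset.sum_range_succ, if_neg (lt_irrefl _), zero_mul, add_zero]
        refine Finset.sum_congr rfl fun i hi => ?_
        rw [if_pos (Finset.mem_range.1 hi)]
      have e2 : ∑ i ∈ Finset.range (l.length + 1),
          (if i = 0 then 1 else -(coef l (i - 1))) * (2 * seq l (n - 1 - i) + 1) =
          (2 * seq l (n - 1) + 1) -
            ∑ i ∈ Finset.range l.length, coef l i * (2 * seq l (n - 1 - 1 - i) + 1) := by
        rw [Finset.sum_range_succ', if_pos rfl, one_mul, Nat.sub_zero, sub_eq_neg_add,
          ← Finset.sum_neg_distrib]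
        congr 1
        refine Finset.sum_congr rfl fun i _ => ?_
        rw [if_neg (Nat.succ_ne_zero i), Nat.add_sub_cancel, neg_mul,
          show n - 1 - (i + 1) = n - 1 - 1 - i by omega]
      rw [e1, e2]
      have e3 := seq_rec l n (by omega)
      have e4 := seq_rec l (n - 1) (by omega)
      have e5 : ∀ m : ℕ, ∑ i ∈ Finset.range l.length, coef l i * (2 * seq l (m - i) + 1) =
          2 * ∑ i ∈ Finset.range l.length, coef l i * seq l (m - i) +
          ∑ i ∈ Finset.range l.length, coef l i := by
        intro m
        rw [Finset.mul_sum, ← Finset.sum_add_distrib]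
        exact Finset.sum_congr rfl fun i _ => by ring
      rw [e5, e5, ← e3, ← e4]
      ring

/-- **Positivity of simple recurrences up to a universal sparse set of indices.**
(1) There is `C` such that for every simple ultimately positive rational recurrence of binary size
`s` (any order) at most `2^(C s^C) (1 + log₂ N)` indices `n < N` with `n ≥ 2^(C s^C)` have `u_n ≤ 0`.
(2) For every `η > 0` there are a decidable set `L` of natural numbers, with at most
`exp ((log N)^η)` elements below `N` for large `N`, and a polynomial time function `f` to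
existential sentences over the reals such that, for every rational recurrence `l`:
if `f l` is true then some term is `≤ 0`; if `l` is simple and `f l` is false then `l` is ultimately
positive and all terms with index outside `L` are positive; if `l` satisfies `NonTight0` and `f l`
is false then all terms are positive.
(3) A sequence `u` is nonnegative and integral only if `2 u + 1` is positive, and `2 u + 1` is the
sequence of the instance `shift l`. -/
theorem result :
    (∃ C : ℕ, ∀ l : Rec, l ≠ [] → Simple l → UltPositive l → ∀ N : ℕ,
      ((Finset.range N).filter (fun n => 2 ^ (C * Pool.Agent.H612.LR.sz l ^ C) ≤ n ∧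
        seq l n ≤ 0)).card ≤ 2 ^ (C * Pool.Agent.H612.LR.sz l ^ C) * (Nat.log 2 N + 1)) ∧
    (∀ η : ℝ, 0 < η → ∃ (L : Set ℕ) (f : List Bool → Fm),
      ComputablePred (fun n : ℕ => n ∈ L) ∧
      (∃ N0 : ℕ, ∀ N : ℕ, N0 ≤ N → ((L ∩ Set.Iio N).ncard : ℝ) ≤ Real.exp (Real.log N ^ η)) ∧
      PolyTime (fun w => bits (f w)) ∧
      ∀ l : Rec, l ≠ [] →
        (ETR (f (bits l)) → ∃ n, seq l n ≤ 0) ∧
        (Simple l → ¬ ETR (f (bits l)) → UltPositive l ∧ ∀ n, n ∉ L → 0 < seq l n) ∧
        (NonTight0 l → ¬ ETR (f (bits l)) → ∀ n, 0 < seq l n)) ∧
    (∀ l : Rec, ∀ n : ℕ, seq (shift l) n = 2 * seq l n + 1) := by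
  refine ⟨few, fun η hη => ?_, seq_shift⟩
  obtain ⟨L, f, h1, h2, h3, h4⟩ := main_str few scl cntS cmp η hη
  refine ⟨L, f, h1, h2, h3, fun l hl => ?_⟩
  obtain ⟨a, b, c⟩ := h4 l hl
  refine ⟨fun h => ?_, fun hs h => ⟨?_, fun n hn => ?_⟩, fun hs h => ?_⟩
  · by_contra hcon
    push Not at hcon
    exact a h hcon
  · by_contra hcon
    exact h (b hs (Or.inl hcon))
  · by_contra hcon
    push Not at hcon
    exact h (b hs (Or.inr ⟨n, hn, hcon⟩))
  · by_contra hcon
    exact h (c hs hcon)

end Pool.Agent.Results.MP_5326a7_lc.UniversalSparseSet
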